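import Pool.Agent.H79.TG.Dens
import Pool.Agent.H79.TG.Num

/-!
# MP_887a8d_co: a general upper bound for totally separable circle packings

Every totally separable packing of circles in the plane (any radii, any directions of the separating lines) whose radii
are `o(R)` in `B(0,R)` has upper density at most `0.94`.  The statement uses only notions of Mathlib.
-/

namespace Pool.Agent.Results.MP_887a8d_co.GeneralBound

open Filter MeasureTheory Metric Pool.Agent.H79.TS Pool.Agent.H79.TG

/-- Let `closedBall (c i) (r i)` be discs in the plane such that any two of them are separated by a line which is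
disjoint from the interiors of all other discs.  If the radii of the discs that meet `B(0,R)` are `o(R)` (for instance
if the radii are bounded), the upper density is at most `0.94`. -/
theorem result {ι : Type*} (c : ι → EuclideanSpace ℝ (Fin 2)) (r : ι → ℝ) (hr : ∀ i, 0 < r i)
    (hsep : ∀ i j, i ≠ j → ∃ (n : EuclideanSpace ℝ (Fin 2)) (t : ℝ), n ≠ 0 ∧
      closedBall (c i) (r i) ⊆ {x | inner ℝ n x ≤ t} ∧
      closedBall (c j) (r j) ⊆ {x | t ≤ inner ℝ n x} ∧
      ∀ l, l ≠ i → l ≠ j → Disjoint (ball (c l) (r l)) {x | inner ℝ n x = t})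
    (hgrow : ∀ ε > 0, ∀ᶠ R : ℝ in atTop, ∀ i,
      (closedBall (c i) (r i) ∩ closedBall 0 R).Nonempty → r i ≤ ε * R) :
    limsup (fun R : ℝ => volume ((⋃ i, closedBall (c i) (r i)) ∩ closedBall 0 R) /
      ENNReal.ofReal (Real.pi * R ^ 2)) atTop ≤ ENNReal.ofReal (94 / 100) := by
  have h : TotSep c r := by
    intro i j hij
    obtain ⟨n, t, hn, h1, h2, h3⟩ := hsep i j hij
    exact ⟨n, t, hn, h1, h2, fun l hli hlj x hx he => Set.disjoint_left.1 (h3 l hli hlj) hx he⟩
  obtain ⟨n, t, hnt⟩ := exists_lines h
  have h1 := dens_of_finite hr h hgrow (L := 3 / 2) (T := 50 / 47) (by norm_num) (by norm_num)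
    (fun S R hR hSR => by
      refine finite_bound hr hnt (L := 3 / 2) (by norm_num) (m := 1) (fun _ => 0.18) (fun _ => Np)
        (fun _ => by norm_num) (by simp; norm_num) (fun _ y hy => Np_nonneg hy)
        (fun _ y _ => Np_le.trans (by norm_num)) ?_ ?_ S hR hSR
      · intro _ ρ s d Y₁ Y₂ hρ hs hd _ _ k1 k2
        exact pair_le hρ hs hd k1 k2
      · intro y hy _
        have := bracket hy
        simp only [Finset.univ_unique, Finset.sum_singleton]
        norm_num at this ⊢
        linarith)
  refine h1.trans (le_of_eq ?_)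
  norm_num

end Pool.Agent.Results.MP_887a8d_co.GeneralBound
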