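import Pool.Agent.H79.TS.Num

/-!
# MP_887a8d_co: totally separable circle packings, radii with a bounded ratio

The conjectured bound `11π/(24√3)` for the upper density of totally separable packings of circles in the plane holds for all
packings in which no radius is more than three times another one (separating lines of arbitrary directions).  The
packing inscribed in the faces of the tiling `(3,6,3,6)` is of this kind (its radii have ratio exactly 3).
Also: the bound `π/4` (square lattice) for ratio at most `9/5`, and a bound for every ratio.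
The statement uses only notions of Mathlib.
-/

namespace Pool.Agent.Results.MP_887a8d_co.RadiusRatio

open Filter MeasureTheory Metric Pool.Agent.H79.TS

/-- Let `closedBall (c i) (r i)` be discs in the plane such that any two of them are separated by a line which is
disjoint from the interiors of all other discs.
* If no radius is more than three times another radius, the upper density is at most `11π/(24√3)`.
* If no radius is more than `9/5` times another radius, the upper density is at most `π/4`.
* If no radius is more than `1/q` times another radius and `x ≥ 3` satisfies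
  `x (1 + (n-4) q²) ≤ n tan (π/n) + 3√3 (n-4) q²` for all `n ≥ 4`, then the upper density is at most `π/x`. -/
theorem result {ι : Type*} (c : ι → EuclideanSpace ℝ (Fin 2)) (r : ι → ℝ) (hr : ∀ i, 0 < r i)
    (hsep : ∀ i j, i ≠ j → ∃ (n : EuclideanSpace ℝ (Fin 2)) (t : ℝ), n ≠ 0 ∧
      closedBall (c i) (r i) ⊆ {x | inner ℝ n x ≤ t} ∧
      closedBall (c j) (r j) ⊆ {x | t ≤ inner ℝ n x} ∧
      ∀ l, l ≠ i → l ≠ j → Disjoint (ball (c l) (r l)) {x | inner ℝ n x = t}) :
    ((∀ i j, r i ≤ 3 * r j) →
      limsup (fun R : ℝ => volume ((⋃ i, closedBall (c i) (r i)) ∩ closedBall 0 R) /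
        ENNReal.ofReal (Real.pi * R ^ 2)) atTop ≤ ENNReal.ofReal (11 * Real.pi / (24 * √3))) ∧
    ((∀ i j, r i ≤ 9 / 5 * r j) →
      limsup (fun R : ℝ => volume ((⋃ i, closedBall (c i) (r i)) ∩ closedBall 0 R) /
        ENNReal.ofReal (Real.pi * R ^ 2)) atTop ≤ ENNReal.ofReal (Real.pi / 4)) ∧
    (∀ q x : ℝ, 0 < q → 3 ≤ x →
      (∀ n : ℕ, 4 ≤ n → x * (1 + ((n : ℝ) - 4) * q ^ 2) ≤
        n * Real.tan (Real.pi / n) + ((n : ℝ) - 4) * q ^ 2 * (3 * √3)) →
      (∀ i j, q * r i ≤ r j) →
      limsup (fun R : ℝ => volume ((⋃ i, closedBall (c i) (r i)) ∩ closedBall 0 R) /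
        ENNReal.ofReal (Real.pi * R ^ 2)) atTop ≤ ENNReal.ofReal (Real.pi / x)) := by
  have h : TotSep c r := by
    intro i j hij
    obtain ⟨n, t, hn, h1, h2, h3⟩ := hsep i j hij
    exact ⟨n, t, hn, h1, h2, fun l hli hlj x hx he => Set.disjoint_left.1 (h3 l hli hlj) hx he⟩
  exact ⟨fun h3 => ratio3 c r hr h3 h, fun h3 => ratio95 c r hr h3 h,
    fun q x hq hx h4 hrq => ratioq c r hr hq hx h4 hrq h⟩

end Pool.Agent.Results.MP_887a8d_co.RadiusRatio
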