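import Pool.Agent.H86.TS.MaB

/-!
# MP_887a8d_co: totally separable packings with three directions of separating lines

The conjectured bound `11π/(24√3)` for the upper density of totally separable packings of circles in the plane, for all
packings whose separating lines can be chosen perpendicular to three given vectors `n 0`, `n 1`, `n 2` (arbitrary
directions; the extremal packing, inscribed in the faces of the tiling `(3,6,3,6)`, is one of them).  The statement
uses only notions of Mathlib.
-/

namespace Pool.Agent.Results.MP_887a8d_co.ThreeDirections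

open Filter MeasureTheory Metric Pool.Agent.H86.TS

theorem ball_ne {n c : EuclideanSpace ℝ (Fin 2)} {r t : ℝ} (hn : n ≠ 0)
    (h : closedBall c r ⊆ {x | inner ℝ n x ≤ t} ∨ closedBall c r ⊆ {x | t ≤ inner ℝ n x}) :
    ∀ x ∈ ball c r, inner ℝ n x ≠ t := by
  intro x hx he
  have hpos : 0 < ‖n‖ := norm_pos_iff.2 hn
  obtain ⟨δ, hδ, hball⟩ := Metric.isOpen_iff.1 (isOpen_ball (x := c) (ε := r)) x hx
  have key : ∀ s : ℝ, |s| < δ / ‖n‖ → x + s • n ∈ closedBall c r := by
    intro s hs
    refine ball_subset_closedBall (hball ?_)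
    rw [mem_ball, dist_eq_norm, add_sub_cancel_left, norm_smul, Real.norm_eq_abs]
    rwa [lt_div_iff₀ hpos] at hs
  have hs : 0 < δ / ‖n‖ / 2 := by positivity
  have hs2 : δ / ‖n‖ / 2 < δ / ‖n‖ := half_lt_self (by positivity)
  have hin : ∀ s : ℝ, inner ℝ n (x + s • n) = t + s * ‖n‖ ^ 2 := by
    intro s
    rw [inner_add_right, inner_smul_right, real_inner_self_eq_norm_sq, he]
  rcases h with h | h
  · have h1 : inner ℝ n (x + (δ / ‖n‖ / 2) • n) ≤ t := h (key _ (by rwa [abs_of_pos hs]))
    rw [hin] at h1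
    have h2 : 0 < δ / ‖n‖ / 2 * ‖n‖ ^ 2 := by positivity
    linarith
  · have h1 : t ≤ inner ℝ n (x + (-(δ / ‖n‖ / 2)) • n) :=
      h (key _ (by rwa [abs_neg, abs_of_pos hs]))
    rw [hin] at h1
    have h2 : 0 < δ / ‖n‖ / 2 * ‖n‖ ^ 2 := by positivity
    linarith

/-- Let `closedBall (c i) (r i)` be discs in the plane such that any two of them are separated by a line perpendicular to
one of three given nonzero vectors and disjoint from the interiors of all other discs.  If the radii of the discs that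
meet `B(0,R)` are `o(R)` (for instance if the radii are bounded), the upper density is at most `11π/(24√3)`. -/
theorem result {ι : Type*} (c : ι → EuclideanSpace ℝ (Fin 2)) (r : ι → ℝ) (hr : ∀ i, 0 < r i)
    (n : Fin 3 → EuclideanSpace ℝ (Fin 2)) (hn : ∀ k, n k ≠ 0)
    (hsep : ∀ i j, i ≠ j → ∃ (k : Fin 3) (t : ℝ),
      ((closedBall (c i) (r i) ⊆ {x | inner ℝ (n k) x ≤ t} ∧
          closedBall (c j) (r j) ⊆ {x | t ≤ inner ℝ (n k) x}) ∨
        (closedBall (c j) (r j) ⊆ {x | inner ℝ (n k) x ≤ t} ∧
          closedBall (c i) (r i) ⊆ {x | t ≤ inner ℝ (n k) x})) ∧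
      ∀ l, l ≠ i → l ≠ j → Disjoint (ball (c l) (r l)) {x | inner ℝ (n k) x = t})
    (hgrow : ∀ ε > 0, ∀ᶠ R : ℝ in atTop, ∀ i,
      (closedBall (c i) (r i) ∩ closedBall 0 R).Nonempty → r i ≤ ε * R) :
    limsup (fun R : ℝ => volume ((⋃ i, closedBall (c i) (r i)) ∩ closedBall 0 R) /
      ENNReal.ofReal (Real.pi * R ^ 2)) atTop ≤ ENNReal.ofReal (11 * Real.pi / (24 * √3)) := by
  have h3 : TotSep3 n c r := by
    intro i j hij
    obtain ⟨k, t, h1, h2⟩ := hsep i j hij
    refine ⟨k, t, h1, ?_⟩
    intro l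
    by_cases hli : l = i
    · subst hli
      rcases h1 with h1 | h1
      · exact ball_ne (hn k) (Or.inl h1.1)
      · exact ball_ne (hn k) (Or.inr h1.2)
    by_cases hlj : l = j
    · subst hlj
      rcases h1 with h1 | h1
      · exact ball_ne (hn k) (Or.inr h1.2)
      · exact ball_ne (hn k) (Or.inl h1.1)
    intro x hx he
    exact Set.disjoint_left.1 (h2 l hli hlj) hx he
  have h4 := main c r hr n hn h3 hgrow
  refine le_trans (le_of_eq ?_) h4
  refine limsup_congr ?_
  filter_upwards [eventually_ge_atTop (0 : ℝ)] with R hR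
  have h5 : volume (closedBall (0 : EuclideanSpace ℝ (Fin 2)) R) =
      ENNReal.ofReal (Real.pi * R ^ 2) := by
    rw [EuclideanSpace.volume_closedBall_fin_two, mul_comm,
      ENNReal.ofReal_mul Real.pi_pos.le, ENNReal.ofReal_pow hR]
  rw [h5]

end Pool.Agent.Results.MP_887a8d_co.ThreeDirections
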